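import Mathlib
import Pool.Agent.TH444.ML.WrG

/-!
# Subgroups of small index without normal subgroups
-/

set_option autoImplicit false

namespace Pool.Agent.V5helper98.ML

open Pool.Agent.H391R2 (Wr)

/-- finite, with at least two elements, and with a subgroup of small index without normal
subgroups -/
structure Data (H : Type) [Group H] : Prop where
  finite : Finite H
  card : 2 ≤ Nat.card H
  core : ∃ U : Subgroup H, U.normalCore = ⊥ ∧ 8 * U.index * (U.index + 1) ≤ Nat.card H

theorem pi_core {I : Type} (T : I → Type) [∀ i, Group (T i)]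
    (U : ∀ i, Subgroup (T i)) (h : ∀ i, (U i).normalCore = ⊥) :
    (Subgroup.pi Set.univ U).normalCore = ⊥ := by
  classical
  rw [eq_bot_iff]
  intro x hx
  rw [Subgroup.mem_bot]
  funext i
  have h1 : x i ∈ (U i).normalCore := by
    intro a
    have h2 : Pi.mulSingle i a * x * (Pi.mulSingle i a)⁻¹ ∈ Subgroup.pi Set.univ U := hx _
    have h3 := h2 i (Set.mem_univ i)
    simpa using h3
  rw [h i, Subgroup.mem_bot] at h1
  exact h1

theorem pi_index {I : Type} [Fintype I] (T : I → Type) [∀ i, Group (T i)]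
    (U : ∀ i, Subgroup (T i)) :
    (Subgroup.pi Set.univ U).index = ∏ i, (U i).index := by
  simp_rw [Subgroup.index, ← Nat.card_pi]
  refine Nat.card_congr
    ((Quotient.congrRight (fun x y ↦ ?_)).trans (Setoid.piQuotientEquiv _).symm)
  rw [QuotientGroup.leftRel_pi]

/-- from a normal subgroup to the group -/
theorem up_core {X T : Type} [Group X] [Group T] (N : Subgroup X) [N.Normal] (e : N ≃* T)
    (U : Subgroup T) (hU : U.normalCore = ⊥) :
    ∃ V : Subgroup X, V.normalCore = ⊥ ∧ V.index = Nat.card (X ⧸ N) * U.index := by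
  refine ⟨(U.comap e.toMonoidHom).map N.subtype, ?_, ?_⟩
  · rw [eq_bot_iff]
    intro x hx
    have hxN : x ∈ N := by
      have h1 := Subgroup.normalCore_le _ hx
      obtain ⟨y, -, rfl⟩ := h1
      exact y.2
    have h2 : e ⟨x, hxN⟩ ∈ U.normalCore := by
      intro t
      have h3 : ((e.symm t : N) : X) * x * ((e.symm t : N) : X)⁻¹ ∈
        (U.comap e.toMonoidHom).map N.subtype := hx _
      obtain ⟨y, hy, hyx⟩ := h3
      have h4 : y = e.symm t * ⟨x, hxN⟩ * (e.symm t)⁻¹ := Subtype.ext hyx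
      have h5 : e y ∈ U := hy
      rw [h4] at h5
      simpa using h5
    rw [hU, Subgroup.mem_bot] at h2
    have h6 : (⟨x, hxN⟩ : N) = 1 := e.injective (by rw [h2, map_one])
    rw [Subgroup.mem_bot]
    exact congrArg Subtype.val h6
  · rw [Subgroup.index_map_subtype, Subgroup.index_comap_of_surjective _ e.surjective, mul_comm]
    rfl

/-- a numerical condition -/
theorem data_of {X T : Type} [Group X] [Group T] (N : Subgroup X) [N.Normal] (e : N ≃* T)
    [Finite T] [Nontrivial T] (hfin : Finite (X ⧸ N)) (U : Subgroup T) (hU : U.normalCore = ⊥)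
    (hc : 16 * Nat.card (X ⧸ N) * U.index ^ 2 ≤ Nat.card T) : Data X := by
  have hfN : Finite N := Finite.of_equiv _ e.symm.toEquiv
  have hfX : Finite X := Finite.of_subgroup_quotient N
  have hcN : Nat.card N = Nat.card T := Nat.card_congr e.toEquiv
  have hcX : Nat.card X = Nat.card (X ⧸ N) * Nat.card N := Subgroup.card_eq_card_quotient_mul_card_subgroup N
  have hT : 2 ≤ Nat.card T := Finite.one_lt_card
  have hY : 1 ≤ Nat.card (X ⧸ N) := Nat.card_pos
  refine ⟨hfX, ?_, ?_⟩
  · rw [hcX, hcN]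
    nlinarith
  · obtain ⟨V, hV, hi⟩ := up_core N e U hU
    refine ⟨V, hV, ?_⟩
    rw [hi, hcX, hcN]
    have hU1 : 1 ≤ U.index := Nat.one_le_iff_ne_zero.2 Subgroup.index_ne_zero_of_finite
    set y := Nat.card (X ⧸ N)
    set u := U.index
    have h1 : 1 ≤ y * u := Nat.one_le_iff_ne_zero.2 (by positivity)
    calc 8 * (y * u) * (y * u + 1) ≤ 8 * (y * u) * (2 * (y * u)) :=
          Nat.mul_le_mul_left _ (by omega)
      _ = y * (16 * y * u ^ 2) := by ring
      _ ≤ y * Nat.card T := Nat.mul_le_mul_left _ hc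

theorem pow_bound {a n : ℕ} (ha : 1 ≤ a) (hn : 10 ≤ n) :
    (16 * (a * n) ^ 2) ^ 2 ≤ a ^ n * n.factorial := by
  have h2 : a ^ 4 ≤ a ^ n := Nat.pow_le_pow_right ha (by omega)
  have h3 : ∀ m : ℕ, 256 * (m + 10) ^ 4 ≤ (m + 10).factorial := by
    intro m
    induction m with
    | zero => decide
    | succ m ih =>
      have e : (m + 1 + 10).factorial = (m + 11) * (m + 10).factorial := by
        rw [show m + 1 + 10 = (m + 10) + 1 by ring, Nat.factorial_succ]
      rw [e]
      have : 256 * (m + 1 + 10) ^ 4 ≤ (m + 11) * (256 * (m + 10) ^ 4) := by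
        have h5 : (m + 11) ^ 3 ≤ (m + 10) ^ 4 := by
          have h6 : (m + 11) ≤ 2 * (m + 10) := by omega
          calc (m + 11) ^ 3 ≤ (2 * (m + 10)) ^ 3 := Nat.pow_le_pow_left h6 3
            _ = 8 * (m + 10) ^ 3 := by ring
            _ ≤ (m + 10) * (m + 10) ^ 3 := Nat.mul_le_mul_right _ (by omega)
            _ = (m + 10) ^ 4 := by ring
        calc 256 * (m + 1 + 10) ^ 4 = 256 * (m + 11) * (m + 11) ^ 3 := by ring
          _ ≤ 256 * (m + 11) * (m + 10) ^ 4 := Nat.mul_le_mul_left _ h5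
          _ = (m + 11) * (256 * (m + 10) ^ 4) := by ring
      exact this.trans (Nat.mul_le_mul_left _ ih)
  have h4 : 256 * n ^ 4 ≤ n.factorial := by
    obtain ⟨m, rfl⟩ := Nat.exists_eq_add_of_le hn
    rw [show 10 + m = m + 10 by ring]
    exact h3 m
  calc (16 * (a * n) ^ 2) ^ 2 = a ^ 4 * (256 * n ^ 4) := by ring
    _ ≤ a ^ n * n.factorial := Nat.mul_le_mul h2 h4

/-- extensions by products of wreath products -/
theorem data_wr {I : Type} [Finite I] [Nonempty I] {G : I → Type} [∀ i, Group (G i)]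
    [∀ i, Finite (G i)] {n : I → ℕ} (hn : ∀ i, 10 ≤ n i)
    (X : Type) [Group X] (N : Subgroup X) [N.Normal] (hN : Nonempty (N ≃* ∀ i, Wr (G i) (n i)))
    (hfin : Finite (X ⧸ N)) (hc : Nat.card (X ⧸ N) ^ 2 ≤ Nat.card N) : Data X := by
  classical
  have : Fintype I := Fintype.ofFinite I
  obtain ⟨e⟩ := hN
  have hfinT : ∀ i, Finite (Wr (G i) (n i)) := fun i =>
    Nat.finite_of_card_ne_zero (by
      rw [Pool.Agent.TH444.ML.wr_card]
      exact (Nat.mul_pos (pow_pos Nat.card_pos _) (Nat.factorial_pos _)).ne')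
  choose U hU hi using fun i => Pool.Agent.TH444.ML.wr_core (G i) (n i) (by have := hn i; omega)
  have hcardT : Nat.card (∀ i, Wr (G i) (n i)) = ∏ i, (Nat.card (G i) ^ n i * (n i).factorial) := by
    rw [Nat.card_pi]
    exact Finset.prod_congr rfl fun i _ => Pool.Agent.TH444.ML.wr_card (G i) (n i)
  have hnt : ∀ i, Nontrivial (Wr (G i) (n i)) := fun i => by
    rw [← Finite.one_lt_card_iff_nontrivial, Pool.Agent.TH444.ML.wr_card]
    have h1 : 1 ≤ Nat.card (G i) ^ n i := Nat.one_le_pow _ _ Nat.card_pos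
    have h2 := Nat.self_le_factorial (n i)
    have h3 := hn i
    nlinarith
  have hntT : Nontrivial (∀ i, Wr (G i) (n i)) := by
    obtain ⟨i₀⟩ := ‹Nonempty I›
    exact Pi.nontrivial_at i₀
  refine data_of N e hfin (Subgroup.pi Set.univ U) (pi_core _ U hU) ?_
  rw [pi_index]
  have hprod : (16 * (∏ i, (U i).index) ^ 2) ^ 2 ≤ Nat.card (∀ i, Wr (G i) (n i)) := by
    rw [hcardT]
    have h1 : 16 * (∏ i, (U i).index) ^ 2 ≤ ∏ i, (16 * ((U i).index) ^ 2) := by
      rw [Finset.prod_mul_distrib, Finset.prod_pow, Finset.prod_const]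
      refine Nat.mul_le_mul_right _ ?_
      have h2 : 1 ≤ (Finset.univ : Finset I).card := Finset.card_pos.2 Finset.univ_nonempty
      calc 16 = 16 ^ 1 := by norm_num
        _ ≤ 16 ^ (Finset.univ : Finset I).card := Nat.pow_le_pow_right (by norm_num) h2
    calc (16 * (∏ i, (U i).index) ^ 2) ^ 2 ≤ (∏ i, (16 * ((U i).index) ^ 2)) ^ 2 :=
          Nat.pow_le_pow_left h1 2
      _ = ∏ i, (16 * ((U i).index) ^ 2) ^ 2 := by rw [Finset.prod_pow]
      _ ≤ ∏ i, (Nat.card (G i) ^ n i * (n i).factorial) := by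
          refine Finset.prod_le_prod' fun i _ => ?_
          rw [hi i]
          exact pow_bound Nat.card_pos (hn i)
  have hcN : Nat.card N = Nat.card (∀ i, Wr (G i) (n i)) := Nat.card_congr e.toEquiv
  rw [hcN] at hc
  refine (Nat.pow_le_pow_iff_left (n := 2) (by norm_num)).1 ?_
  calc (16 * Nat.card (X ⧸ N) * (∏ i, (U i).index) ^ 2) ^ 2
      = Nat.card (X ⧸ N) ^ 2 * (16 * (∏ i, (U i).index) ^ 2) ^ 2 := by ring
    _ ≤ Nat.card (∀ i, Wr (G i) (n i)) * Nat.card (∀ i, Wr (G i) (n i)) := Nat.mul_le_mul hc hprod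
    _ = _ := by ring

end Pool.Agent.V5helper98.ML
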