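import Mathlib
import Pool.Agent.V5helper98.ML.Voc
import Pool.Agent.V5helper98.ML.Core
import Pool.Agent.TH444.ML.Done

/-!
# Malle's conjecture for `C₂ ≀ H` and the inverse Galois problem for `H`
-/

set_option autoImplicit false

open Filter
open Nfff32c05 (IsRealizable GaloisRealization)

namespace Pool.Agent.V5helper98.ML

/-- The group `C₂ ≀ H` exists, and is transitive. -/
theorem exists_group (H : Type) [Group H] [Finite H] : Exists H := by
  have hcard : Nat.card (H × Bool) = 2 * Nat.card H := by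
    rw [Nat.card_prod, mul_comm]
    simp
  let f : Fin (2 * Nat.card H) ≃ H × Bool := (Finite.equivFinOfCardEq hcard).symm
  let G : Subgroup (Equiv.Perm (Fin (2 * Nat.card H))) :=
    { carrier := {π | ∃ h : H, ∀ i, (f (π i)).1 = h * (f i).1}
      one_mem' := ⟨1, fun i => by simp⟩
      mul_mem' := by
        rintro π ρ ⟨h, hh⟩ ⟨h', hh'⟩
        refine ⟨h * h', fun i => ?_⟩
        rw [Equiv.Perm.mul_apply, hh, hh', mul_assoc]
      inv_mem' := by
        rintro π ⟨h, hh⟩
        refine ⟨h⁻¹, fun i => ?_⟩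
        have h1 := hh (π⁻¹ i)
        rw [show π (π⁻¹ i) = i from π.apply_symm_apply i] at h1
        rw [h1, inv_mul_cancel_left] }
  refine ⟨2 * Nat.card H, G, rfl, ⟨f, fun π => Iff.rfl⟩, fun i j => ?_⟩
  let t : Equiv.Perm (H × Bool) :=
    (Equiv.mulLeft ((f j).1 * (f i).1⁻¹)).prodCongr (Equiv.swap (f i).2 (f j).2)
  refine ⟨f.trans (t.trans f.symm), ⟨(f j).1 * (f i).1⁻¹, fun x => ?_⟩, ?_⟩
  · simp [t]
  · change f.symm (t (f i)) = j
    rw [Equiv.symm_apply_eq]
    exact Prod.ext (by simp [t]) (by simp [t])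

section

variable (K : Type) [Field K] [NumberField K] {H : Type} [Group H]

omit [NumberField K] in
theorem gal_iff [Finite H] :
    (Pool.Agent.TH444.ML.Gal K (AlgebraicClosure K) H).Nonempty ↔ IsRealizable K H := by
  constructor
  · rintro ⟨M, h1, h2, ⟨e⟩⟩
    exact ⟨⟨⟨M, inferInstance, inferInstance, h2, e.symm⟩⟩⟩
  · rintro ⟨⟨R⟩⟩
    let _ := R.to_field
    let _ := R.to_algebra
    have hg : IsGalois K R.L := R.to_isGalois
    have γ := R.iso
    have hfin : Finite (R.L ≃ₐ[K] R.L) := Finite.of_equiv H γ.toEquiv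
    have hfd : FiniteDimensional K R.L := Pool.Agent.TH444.ML.fd_of_finite_aut K R.L
    let j : R.L →ₐ[K] AlgebraicClosure K := IsAlgClosed.lift
    let ε : R.L ≃ₐ[K] j.fieldRange := AlgEquiv.ofInjectiveField j
    refine ⟨j.fieldRange, ?_, ?_, ?_⟩
    · exact Module.Finite.equiv ε.toLinearEquiv
    · exact IsGalois.of_algEquiv ε
    · exact ⟨(AlgEquiv.autCongr ε).symm.trans γ.symm⟩

theorem real_of_ext [Finite H] {d : ℕ} {G : Subgroup (Equiv.Perm (Fin d))} (hG : IsC2Wreath H G)
    {B : ℝ} (h : N K d G B ≠ 0) : IsRealizable K H := by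
  rw [← gal_iff]
  have h1 : Nonempty (Quot fun L L' : Ext K d G B => Nonempty (L.1 ≃ₐ[K] L'.1)) := by
    by_contra hc
    rw [not_nonempty_iff] at hc
    exact h (Nat.card_of_isEmpty)
  obtain ⟨q⟩ := h1
  obtain ⟨⟨L, hL⟩, -⟩ := Quot.exists_rep q
  have hL' : L ∈ Pool.Agent.TH444.ML.Cnt K G B := hL
  rw [Pool.Agent.TH444.ML.cnt_eq K (H := H) hG] at hL'
  obtain ⟨a1, a2, -⟩ := hL'
  obtain ⟨M, hM⟩ := (Pool.Agent.TH365.J3099.wrIff K (AlgebraicClosure K) H L).1 ⟨a1, a2⟩
  exact ⟨M, hM.1⟩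

theorem over_of_real (hd : Data H) (hK : IsRealizable K H) : MalleOver K H := by
  intro d G hG
  have hf := hd.finite
  obtain ⟨U, hU, hc⟩ := hd.core
  exact Pool.Agent.TH444.ML.asymp_iso Pool.Agent.TH444.ML.rest K H hd.card U hU hc
    ((gal_iff K).2 hK) G hG

theorem nof_of_not [Finite H] (hK : ¬ IsRealizable K H) : NoFields K H := by
  intro d G hG B
  by_contra hc
  exact hK (real_of_ext K hG hc)

end

theorem all_iff {H : Type} [Group H] (hd : Data H) :
    MalleAll H ↔ ∀ (K : Type) [Field K] [NumberField K], IsRealizable K H := by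
  have hf := hd.finite
  constructor
  · intro h K _ _
    obtain ⟨d, G, -, hG, -⟩ := exists_group H
    obtain ⟨a, ha, hM⟩ := h d G hG
    obtain ⟨c, b, hc, -, hlim⟩ := hM K
    have h1 : ∀ᶠ B : ℝ in atTop, 0 < (N K d G B : ℝ) / (B ^ a * Real.log B ^ (b - 1)) :=
      hlim.eventually (lt_mem_nhds hc)
    obtain ⟨B, hB⟩ := h1.exists
    refine real_of_ext K hG (B := B) ?_
    intro h0
    rw [h0] at hB
    simp at hB
  · intro h d G hG
    refine ⟨1, one_pos, fun K _ _ => ?_⟩
    obtain ⟨c, hc0, hlim⟩ := over_of_real K hd (h K) d G hG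
    refine ⟨c, 1, hc0, le_rfl, ?_⟩
    simpa using hlim

/-- The main step: `H` and `Y` are Galois groups over the same number fields. -/
theorem malleIff_of {H Y : Type} [Group H] [Group Y] (hd : Data H)
    (h : ∀ (K : Type) [Field K] [NumberField K], IsRealizable K H ↔ IsRealizable K Y) :
    MalleIff H Y := by
  have hf := hd.finite
  refine ⟨exists_group H, fun K _ _ => ⟨fun hK => ?_, fun hK => ?_⟩, ?_⟩
  · exact over_of_real K hd ((h K).2 hK)
  · exact nof_of_not K fun hc => hK ((h K).1 hc)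
  · rw [all_iff hd]
    exact ⟨fun h1 K _ _ => (h K).1 (h1 K), fun h1 K _ _ => (h K).2 (h1 K)⟩

end Pool.Agent.V5helper98.ML
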