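import Mathlib
import Pool.Agent.V5helper98.ML.Voc

/-!
# Malle's conjecture for `C₂ ≀ X`: groups with large faithful permutation representations
-/

set_option autoImplicit false

namespace Pool.Agent.V5helper98.ML

/-- The group `X` has a subgroup `U` of index `u` with `8 u (u + 1) ≤ |X|` which contains no normal
subgroup of `X` except `1`: it has a faithful transitive permutation representation of degree `u`. -/
def SmallDegree (X : Type) [Group X] : Prop :=
  ∃ U : Subgroup X, U.normalCore = ⊥ ∧ 8 * U.index * (U.index + 1) ≤ Nat.card X

/-- `T` is a finite group with more than one element which has a subgroup of index `u` with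
`256 u ^ 4 ≤ |T|` which contains no normal subgroup of `T` except `1`. -/
def SmallIndex (T : Type) [Group T] : Prop :=
  Finite T ∧ Nontrivial T ∧ ∃ U : Subgroup T, U.normalCore = ⊥ ∧ 256 * U.index ^ 4 ≤ Nat.card T

end Pool.Agent.V5helper98.ML
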