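import Mathlib
import Pool.Agent.V5helper98.ML.VocU
import Pool.Agent.V5helper98.ML.Core
import Pool.Agent.Y793.Ml
import Pool.Agent.N70.EP.VocC

/-!
# Subgroups of small index in wreath products
-/

set_option autoImplicit false

namespace Pool.Agent.V5helper98.ML

open Pool.Agent.H391R2 (Wr)
open Pool.Agent.N70.EP.Voc (Wreath AltWreath TwPow twPr)

theorem SmallIndex.prod {I : Type} [Finite I] [Nonempty I] (T : I → Type) [∀ i, Group (T i)]
    (h : ∀ i, SmallIndex (T i)) : SmallIndex (∀ i, T i) := by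
  classical
  have : Fintype I := Fintype.ofFinite I
  have hf : ∀ i, Finite (T i) := fun i => (h i).1
  have hnt : ∀ i, Nontrivial (T i) := fun i => (h i).2.1
  choose U hU hi using fun i => (h i).2.2
  refine ⟨inferInstance, ?_, Subgroup.pi Set.univ U, pi_core _ U hU, ?_⟩
  · obtain ⟨i₀⟩ := ‹Nonempty I›
    exact Pi.nontrivial_at i₀
  · rw [pi_index, Nat.card_pi]
    have h2 : 1 ≤ (Finset.univ : Finset I).card := Finset.card_pos.2 Finset.univ_nonempty
    calc 256 * (∏ i, (U i).index) ^ 4 ≤ 256 ^ (Finset.univ : Finset I).card *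
          (∏ i, (U i).index) ^ 4 := by
          refine Nat.mul_le_mul_right _ ?_
          calc 256 = 256 ^ 1 := by norm_num
            _ ≤ 256 ^ (Finset.univ : Finset I).card := Nat.pow_le_pow_right (by norm_num) h2
      _ = ∏ i, (256 * (U i).index ^ 4) := by
          rw [Finset.prod_mul_distrib, Finset.prod_pow, Finset.prod_const]
      _ ≤ ∏ i, Nat.card (T i) := Finset.prod_le_prod' fun i _ => hi i

theorem SmallIndex.iso {T T' : Type} [Group T] [Group T'] (e : T ≃* T') (h : SmallIndex T) :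
    SmallIndex T' := by
  obtain ⟨h1, h2, U, h3, h4⟩ := h
  refine ⟨Finite.of_equiv _ e.toEquiv, e.symm.toEquiv.nontrivial, U.comap e.symm.toMonoidHom,
    ?_, ?_⟩
  · rw [eq_bot_iff]
    intro x hx
    have h5 : e.symm x ∈ U.normalCore := by
      intro t
      have h6 := hx (e t)
      rw [Subgroup.mem_comap] at h6
      simpa using h6
    rw [h3, Subgroup.mem_bot] at h5
    rw [Subgroup.mem_bot]
    exact e.symm.injective (by rw [h5, map_one])
  · rw [Subgroup.index_comap_of_surjective _ e.symm.surjective, ← Nat.card_congr e.toEquiv]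
    exact h4

theorem small_wreath (G : Type) [Group G] [Finite G] (n : ℕ) (hn : 10 ≤ n) :
    SmallIndex (Wreath G n) := by
  have hc : Nat.card (Wr G n) = Nat.card G ^ n * n.factorial := Pool.Agent.TH444.ML.wr_card G n
  have h1 : 1 ≤ Nat.card G ^ n := Nat.one_le_pow _ _ Nat.card_pos
  have h2 := Nat.self_le_factorial n
  have hfin : Finite (Wr G n) := Pool.Agent.H391R2.T4.finite_wr G n
  refine ⟨hfin, ?_, ?_⟩
  · rw [← Finite.one_lt_card_iff_nontrivial]
    change 1 < Nat.card (Wr G n)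
    rw [hc]
    nlinarith
  · obtain ⟨U, hU, hi⟩ := Pool.Agent.TH444.ML.wr_core G n (by omega)
    refine ⟨U, hU, ?_⟩
    rw [hi, hc]
    have := pow_bound (a := Nat.card G) (n := n) Nat.card_pos hn
    calc 256 * (Nat.card G * n) ^ 4 = (16 * (Nat.card G * n) ^ 2) ^ 2 := by ring
      _ ≤ _ := this

theorem pow_bound' {a n : ℕ} (ha : 1 ≤ a) (hn : 11 ≤ n) :
    2 * (256 * (a * n) ^ 4) ≤ a ^ n * n.factorial := by
  have h2 : a ^ 4 ≤ a ^ n := Nat.pow_le_pow_right ha (by omega)
  have h3 : ∀ m : ℕ, 512 * (m + 11) ^ 4 ≤ (m + 11).factorial := by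
    intro m
    induction m with
    | zero => decide
    | succ m ih =>
      have e : (m + 1 + 11).factorial = (m + 12) * (m + 11).factorial := by
        rw [show m + 1 + 11 = (m + 11) + 1 by ring, Nat.factorial_succ]
      rw [e]
      have : 512 * (m + 1 + 11) ^ 4 ≤ (m + 12) * (512 * (m + 11) ^ 4) := by
        have h5 : (m + 12) ^ 3 ≤ (m + 11) ^ 4 := by
          have h6 : (m + 12) ≤ 2 * (m + 11) := by omega
          calc (m + 12) ^ 3 ≤ (2 * (m + 11)) ^ 3 := Nat.pow_le_pow_left h6 3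
            _ = 8 * (m + 11) ^ 3 := by ring
            _ ≤ (m + 11) * (m + 11) ^ 3 := Nat.mul_le_mul_right _ (by omega)
            _ = (m + 11) ^ 4 := by ring
        calc 512 * (m + 1 + 11) ^ 4 = 512 * (m + 12) * (m + 12) ^ 3 := by ring
          _ ≤ 512 * (m + 12) * (m + 11) ^ 4 := Nat.mul_le_mul_left _ h5
          _ = (m + 12) * (512 * (m + 11) ^ 4) := by ring
      exact this.trans (Nat.mul_le_mul_left _ ih)
  have h4 : 512 * n ^ 4 ≤ n.factorial := by
    obtain ⟨m, rfl⟩ := Nat.exists_eq_add_of_le hn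
    rw [show 11 + m = m + 11 by ring]
    exact h3 m
  calc 2 * (256 * (a * n) ^ 4) = a ^ 4 * (512 * n ^ 4) := by ring
    _ ≤ a ^ n * n.factorial := Nat.mul_le_mul h2 h4

theorem small_altWreath (G : Type) [Group G] [Finite G] (n : ℕ) (hn : 11 ≤ n) :
    SmallIndex (AltWreath G n) := by
  have hfin : Finite (Wr G n) := Pool.Agent.H391R2.T4.finite_wr G n
  have e : Pool.Agent.Y793.AWr G n ≃* AltWreath G n := MulEquiv.refl _
  refine SmallIndex.iso e ?_
  have hc := Pool.Agent.Y793.awr_card G n (by omega)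
  have h1 : 1 ≤ Nat.card G ^ n := Nat.one_le_pow _ _ Nat.card_pos
  have h2 := Nat.self_le_factorial n
  refine ⟨inferInstance, ?_, ?_⟩
  · rw [← Finite.one_lt_card_iff_nontrivial]
    nlinarith
  · obtain ⟨U, hU, hi⟩ := Pool.Agent.Y793.awr_core G n (by omega)
    refine ⟨U, hU, ?_⟩
    have := pow_bound' (a := Nat.card G) (n := n) Nat.card_pos hn
    have h3 : 256 * U.index ^ 4 ≤ 256 * (Nat.card G * n) ^ 4 :=
      Nat.mul_le_mul_left _ (Nat.pow_le_pow_left hi 4)
    omega

theorem data_small {X : Type} [Group X] (N : Subgroup X) [N.Normal] (hN : SmallIndex N)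
    (hfin : Finite (X ⧸ N)) (hc : Nat.card (X ⧸ N) ^ 2 ≤ Nat.card N) : Data X := by
  obtain ⟨h1, h2, U, hU, hi⟩ := hN
  refine data_of N (MulEquiv.refl N) hfin U hU ?_
  refine (Nat.pow_le_pow_iff_left (n := 2) (by norm_num)).1 ?_
  calc (16 * Nat.card (X ⧸ N) * U.index ^ 2) ^ 2
      = Nat.card (X ⧸ N) ^ 2 * (256 * U.index ^ 4) := by ring
    _ ≤ Nat.card N * Nat.card N := Nat.mul_le_mul hc hi
    _ = _ := by ring

theorem small_degree {X : Type} [Group X] (N : Subgroup X) [N.Normal] (hN : SmallIndex N)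
    (hfin : Finite (X ⧸ N)) (hc : Nat.card (X ⧸ N) ^ 2 ≤ Nat.card N) : SmallDegree X :=
  (data_small N hN hfin hc).core

theorem data_of_small {X : Type} [Group X] [Finite X] (h : SmallDegree X) : Data X := by
  refine ⟨inferInstance, ?_, h⟩
  obtain ⟨U, -, hU⟩ := h
  have h1 : 1 ≤ U.index := Nat.one_le_iff_ne_zero.2 Subgroup.index_ne_zero_of_finite
  nlinarith

/-- The kernel of the projection of an alternating fibre power. -/
noncomputable def kerTw {B W : Type} [Group B] [Group W] (α : B →* W) (χ : W →* ℤˣ) (n : ℕ) :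
    (twPr α χ n).ker ≃* AltWreath α.ker n where
  toFun z := ⟨⟨fun i => ⟨z.1.1.1.left i, by
      have h1 := z.1.2.1 i
      have h2 : z.1.1.2 = 1 := z.2
      rw [MonoidHom.mem_ker, h1, h2]⟩, z.1.1.1.right⟩, by
      have h1 := z.1.2.2
      have h2 : z.1.1.2 = 1 := z.2
      rw [h2, map_one] at h1
      exact h1⟩
  invFun x := ⟨⟨(⟨fun i => (x.1.left i).1, x.1.right⟩, 1),
    ⟨fun i => (x.1.left i).2, by
      have h1 : Equiv.Perm.sign x.1.right = 1 := x.2
      rw [map_one]
      exact h1⟩⟩, rfl⟩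
  left_inv z := by
    have h2 : z.1.1.2 = 1 := z.2
    apply Subtype.ext
    apply Subtype.ext
    exact Prod.ext (SemidirectProduct.ext rfl rfl) h2.symm
  right_inv x := by
    apply Subtype.ext
    exact SemidirectProduct.ext rfl rfl
  map_mul' z w := by
    apply Subtype.ext
    exact SemidirectProduct.ext rfl rfl

end Pool.Agent.V5helper98.ML
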