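import Mathlib
import Pool.Agent.V5helper98.ML.Iff
import Pool.Agent.N600.UK.Main
import Pool.Agent.N600.ZQ.T6
import Pool.Agent.N600.ZQ.T8
import Pool.Agent.N600.SW.Fin

/-!
# Malle's conjecture for `C₂ ≀ X`, `X` an extension by `∏ G_i ≀ S_{n_i}`
-/

set_option autoImplicit false

open Nfff32c05 (IsRealizable)
open Pool.Agent.H391R2 (Wr)
open Pool.Agent.H391R2.T4 (HilbField hilb_numberField finite_wr)

namespace Pool.Agent.V5helper98.ML

/-- quotients of Galois groups are Galois groups -/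
theorem real_quot (K : Type) [Field K] {X : Type} [Group X] [Finite X] (N : Subgroup X) [N.Normal]
    (h : IsRealizable K X) : IsRealizable K (X ⧸ N) := by
  obtain ⟨L, i1, i2, i3, i4, ⟨f⟩⟩ := Pool.Agent.TH59.WX.exists_gal_of K X h
  exact Pool.Agent.H391R2.isRealizable_quotient L
    ((QuotientGroup.mk' N).comp f.symm.toMonoidHom)
    ((QuotientGroup.mk'_surjective N).comp f.symm.surjective)

/-- isomorphic groups have isomorphic wreath products -/
noncomputable def wrCongr {G H : Type} [Group G] [Group H] (e : G ≃* H) (n : ℕ) :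
    Wr G n ≃* Wr H n :=
  MulEquiv.ofBijective (Pool.Agent.H391R2.wrMap e.toMonoidHom n) (by
    refine ⟨?_, Pool.Agent.H391R2.wrMap_surjective _ n e.surjective⟩
    intro x y hxy
    apply SemidirectProduct.ext
    · funext i
      have h1 := congrArg (fun w : Wr H n => w.left i) hxy
      exact e.injective h1
    · exact congrArg (fun w : Wr H n => w.right) hxy)

theorem card_compl {X : Type} [Group X] (N Q : Subgroup X) [N.Normal] (hQ : N ⊔ Q = ⊤)
    (hQN : N ⊓ Q = ⊥) : Nat.card Q = Nat.card (X ⧸ N) := by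
  let r : Q →* X ⧸ N := (QuotientGroup.mk' N).comp Q.subtype
  refine Nat.card_congr (Equiv.ofBijective r ⟨?_, ?_⟩)
  · rw [injective_iff_map_eq_one]
    intro q hq
    have h1 : (q : X) ∈ N := by
      have : (QuotientGroup.mk' N) (q : X) = 1 := hq
      rwa [← MonoidHom.mem_ker, QuotientGroup.ker_mk'] at this
    have h2 : (q : X) ∈ N ⊓ Q := ⟨h1, q.2⟩
    rw [hQN, Subgroup.mem_bot] at h2
    exact Subtype.ext h2
  · intro y
    obtain ⟨x, rfl⟩ := QuotientGroup.mk'_surjective N y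
    have hx : x ∈ N ⊔ Q := by rw [hQ]; exact Subgroup.mem_top x
    obtain ⟨a, ha, q, hq, rfl⟩ := Subgroup.mem_sup_of_normal_left.1 hx
    refine ⟨⟨q, hq⟩, ?_⟩
    change (QuotientGroup.mk' N) q = (QuotientGroup.mk' N) (a * q)
    rw [map_mul, show (QuotientGroup.mk' N) a = 1 from (QuotientGroup.eq_one_iff a).2 ha, one_mul]

theorem ten_le {a n : ℕ} (ha : 1 ≤ a) (hn : ((3 * a + 2).factorial) ^ 3 ≤ n) : 10 ≤ n := by
  rcases Pool.Agent.TH444.ML.fact_bound a with h | h
  · exact h.trans hn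
  · omega

section

variable {I : Type} [Finite I] [Nonempty I] {G : I → Type} [∀ i, Group (G i)]
  [∀ i, Finite (G i)] [∀ i, Nontrivial (G i)] {n : I → ℕ} (hZ : ∀ i, Subgroup.center (G i) = ⊥)
  (hn : ∀ i, ((3 * Nat.card (G i) + 2).factorial) ^ 3 ≤ n i)
  (X : Type) [Group X] (N : Subgroup X) [N.Normal]
  (hN : Nonempty (N ≃* ∀ i, Wr (G i) (n i))) (hfin : Finite (X ⧸ N))
  (hc : Nat.card (X ⧸ N) ^ 2 ≤ Nat.card N)

omit [∀ i, Nontrivial (G i)] in
include hn hN hfin hc in
theorem dat : Data X := data_wr (fun i => ten_le Nat.card_pos (hn i)) X N hN hfin hc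

omit [Nonempty I] in
include hZ hn hN hfin in
theorem fin_X : Finite X := Pool.Agent.N600.ZQ.fin_main hZ hn X N hN hfin

omit [∀ i, Nontrivial (G i)] in
include hn hN hfin hc in
/-- universal kernels -/
theorem iff_univ (hT : Pool.Agent.N600.UK.Univ (∀ i, Wr (G i) (n i))) : MalleIff X (X ⧸ N) :=
  malleIff_of (dat hn X N hN hfin hc) fun K _ _ => hT.real_hilb K (hilb_numberField K) X N hN hfin

include hZ hn hN hfin hc in
/-- coprime outer action -/
theorem iff_cop (hcop : ∀ i, Nat.Coprime (N ⊔ Subgroup.centralizer (N : Set X)).index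
    (Nat.card (G i))) : MalleIff X (X ⧸ N) := by
  refine malleIff_of (dat hn X N hN hfin hc) fun K _ _ => ?_
  have hfinX : Finite X := fin_X hZ hn X N hN hfin
  have hk : (QuotientGroup.mk' N).ker = N := QuotientGroup.ker_mk' N
  have hr : Pool.Agent.TH444.TW.RS (QuotientGroup.mk' N) :=
    Pool.Agent.N600.ZQ.cop_rs hZ hn (QuotientGroup.mk' N) (QuotientGroup.mk'_surjective N)
      ⟨(MulEquiv.subgroupCongr hk).trans hN.some⟩ (by rw [hk]; exact hcop)
  obtain ⟨-, h2, -⟩ := Pool.Agent.N600.ZQ.reduces_of_rs (QuotientGroup.mk' N) hr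
    (MonoidHom.id X) Function.surjective_id
  exact ⟨fun h => real_quot K N h, fun h => h2 K (hilb_numberField K) h⟩

include hZ hN hfin hc in
/-- split extensions -/
theorem iff_split (Q : Subgroup X) (hQ : N ⊔ Q = ⊤) (hQN : N ⊓ Q = ⊥)
    (hn' : ∀ i, ((3 * (Nat.card (G i) * Nat.card Q) + 2).factorial) ^ 3 ≤ n i) :
    MalleIff X (X ⧸ N) := by
  have hfinT : ∀ i, Finite (Wr (G i) (n i)) := fun i => finite_wr (G i) (n i)
  have hfinN : Finite N := Finite.of_equiv _ hN.some.symm.toEquiv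
  have hfX : Finite X := Finite.of_subgroup_quotient N
  have hfQ : Finite Q := inferInstance
  have hn : ∀ i, ((3 * Nat.card (G i) + 2).factorial) ^ 3 ≤ n i := fun i => by
    refine le_trans (Nat.pow_le_pow_left (Nat.factorial_le ?_) 3) (hn' i)
    have h1 : 1 ≤ Nat.card Q := Nat.card_pos
    have h2 : Nat.card (G i) ≤ Nat.card (G i) * Nat.card Q := Nat.le_mul_of_pos_right _ h1
    omega
  refine malleIff_of (dat hn X N hN hfin hc) fun K _ _ => ⟨fun h => real_quot K N h, fun h => ?_⟩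
  refine (Pool.Agent.N600.SW.supp_main hZ X N hN Q hQ hn' K).1 (hilb_numberField K) ?_
  -- `Q ≃ X / N`
  let r : Q →* X ⧸ N := (QuotientGroup.mk' N).comp Q.subtype
  have hr1 : Function.Injective r := by
    rw [injective_iff_map_eq_one]
    intro q hq
    have h1 : (q : X) ∈ N := by
      have : (QuotientGroup.mk' N) (q : X) = 1 := hq
      rwa [← MonoidHom.mem_ker, QuotientGroup.ker_mk'] at this
    have h2 : (q : X) ∈ N ⊓ Q := ⟨h1, q.2⟩
    rw [hQN, Subgroup.mem_bot] at h2
    exact Subtype.ext h2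
  have hr2 : Function.Surjective r := by
    intro y
    obtain ⟨x, rfl⟩ := QuotientGroup.mk'_surjective N y
    have hx : x ∈ N ⊔ Q := by rw [hQ]; exact Subgroup.mem_top x
    obtain ⟨a, ha, q, hq, rfl⟩ := Subgroup.mem_sup_of_normal_left.1 hx
    refine ⟨⟨q, hq⟩, ?_⟩
    change (QuotientGroup.mk' N) q = (QuotientGroup.mk' N) (a * q)
    rw [map_mul, show (QuotientGroup.mk' N) a = 1 from (QuotientGroup.eq_one_iff a).2 ha, one_mul]
  obtain ⟨L, i1, i2, i3, i4, ⟨f⟩⟩ := Pool.Agent.TH59.WX.exists_gal_of K (X ⧸ N) h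
  exact Pool.Agent.H391R2.isRealizable_of L ((MulEquiv.ofBijective r ⟨hr1, hr2⟩).trans f)

include hZ hn hN hfin hc in
/-- quotients all of whose Sylow subgroups are cyclic -/
theorem all_z (hz : IsZGroup (X ⧸ N)) : MalleAll X :=
  (all_iff (dat hn X N hN hfin hc)).2 (Pool.Agent.N600.ZQ.z_main hZ hn X N hN hfin).1

end

end Pool.Agent.V5helper98.ML
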